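import Pool.Agent.K3h16.MI.Stm2

/-!
# Holomorphy of the energy integral for `Re z > -m` (brick HOLM for helper16)
-/

set_option autoImplicit false

open MeasureTheory Set Filter Topology

namespace Pool.Agent.K3h23.MI

open Pool.Agent.K3h16.MI

theorem kdet_zero {m n : ℕ} (v w : Fin m → E n) (r : E n) : kdet 0 v w r = pairing v w := by
  unfold kdet pairing
  congr 1
  ext i j
  simp

theorem pairing_le {m n : ℕ} {v w : Fin m → E n} (hv : ∀ i, ‖v i‖ ≤ 1) (hw : ∀ i, ‖w i‖ ≤ 1) :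
    |pairing v w| ≤ (m.factorial : ℝ) := by
  have h := Matrix.det_le (abv := (AbsoluteValue.abs : AbsoluteValue ℝ ℝ))
    (A := Matrix.of fun i j => inner ℝ (v i) (w j)) (x := 1) (fun i j => by
      have h1 := abs_real_inner_le_norm (v i) (w j)
      have h2 : ‖v i‖ * ‖w j‖ ≤ 1 * 1 :=
        mul_le_mul (hv i) (hw j) (norm_nonneg _) zero_le_one
      rw [one_mul] at h2
      exact h1.trans h2)
  simpa [pairing] using h

theorem no_atoms {m n : ℕ} {M : Set (E n)} {e : E n → Fin m → E n} {v : Measure (E n)}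
    (hm : 1 ≤ m) (h : IsOCS M e v) (x : E n) : v {x} = 0 := by
  by_cases hx : x ∈ M
  · obtain ⟨γ, hγ, hxγ, -⟩ := h.charts x hx
    have h1 := h.vol_param γ hγ
    have h2 : v {x} = (v.restrict (range γ)) {x} := by
      rw [Measure.restrict_apply (measurableSet_singleton x),
        inter_eq_left.2 (singleton_subset_iff.2 hxγ)]
    rw [h2, h1, Measure.map_apply hγ.smooth.continuous.measurable (measurableSet_singleton x)]
    obtain ⟨u, rfl⟩ := hxγ
    have h3 : γ ⁻¹' {γ u} = {u} := by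
      ext u'
      simp [hγ.embedding.injective.eq_iff]
    rw [h3]
    have hne : Nonempty (Fin m) := ⟨⟨0, by omega⟩⟩
    have hnt : Nontrivial (E m) := inferInstance
    exact (withDensity_absolutelyContinuous _ _) (measure_singleton u)
  · exact measure_mono_null (singleton_subset_iff.2 hx : {x} ⊆ Mᶜ) h.vol_compl

theorem diag_null {m n : ℕ} {M : Set (E n)} {e : E n → Fin m → E n} {v : Measure (E n)}
    [IsFiniteMeasure v] (hm : 1 ≤ m) (h : IsOCS M e v) :
    (v.prod v) {p : E n × E n | p.1 = p.2} = 0 := by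
  rw [Measure.measure_prod_null (measurableSet_eq_fun measurable_fst measurable_snd)]
  refine Eventually.of_forall fun x => ?_
  have h1 : Prod.mk x ⁻¹' {p : E n × E n | p.1 = p.2} = {x} := by
    ext y
    simp [eq_comm]
  show v (Prod.mk x ⁻¹' {p : E n × E n | p.1 = p.2}) = 0
  rw [h1]
  exact no_atoms hm h x

/-- almost every pair is in `M × M`, off the diagonal -/
theorem ae_good {m n : ℕ} {M : Set (E n)} {e : E n → Fin m → E n} {v : Measure (E n)}
    [IsFiniteMeasure v] (hm : 1 ≤ m) (h : IsOCS M e v) :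
    ∀ᵐ p : E n × E n ∂(v.prod v), p ∈ (M ×ˢ M) ∩ {p : E n × E n | p.1 ≠ p.2} := by
  have h1 : ∀ᵐ x ∂v, x ∈ M := by
    rw [ae_iff]
    exact h.vol_compl
  have h2 : ∀ᵐ p : E n × E n ∂(v.prod v), p.1 ∈ M :=
    Measure.quasiMeasurePreserving_fst.ae h1
  have h3 : ∀ᵐ p : E n × E n ∂(v.prod v), p.2 ∈ M :=
    Measure.quasiMeasurePreserving_snd.ae h1
  have h4 : ∀ᵐ p : E n × E n ∂(v.prod v), p.1 ≠ p.2 := by
    rw [ae_iff]
    simpa using diag_null hm h
  filter_upwards [h2, h3, h4] with p h5 h6 h7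
  exact ⟨⟨h5, h6⟩, h7⟩

theorem pairing_meas (hC : S_CONT) {m n : ℕ} {M : Set (E n)} {e : E n → Fin m → E n}
    {v : Measure (E n)} [IsFiniteMeasure v] (hm : 1 ≤ m) (h : IsOCS M e v) :
    AEStronglyMeasurable (fun p : E n × E n => pairing (e p.1) (e p.2)) (v.prod v) := by
  have hS : MeasurableSet ((M ×ˢ M) ∩ {p : E n × E n | p.1 ≠ p.2}) := by
    refine (h.compact.measurableSet.prod h.compact.measurableSet).inter ?_
    exact (measurableSet_eq_fun measurable_fst measurable_snd).compl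
  have h1 := hC m n M e v h 0 1 one_pos
  have h2 : ContinuousOn (fun p : E n × E n => pairing (e p.1) (e p.2))
      ((M ×ˢ M) ∩ {p : E n × E n | p.1 ≠ p.2}) := by
    have h3 : ContinuousOn (fun p : E n × E n =>
        (kdet 0 (e p.1) (e p.2) (p.1 - p.2) * ‖p.1 - p.2‖ ^ (1 : ℝ)) / ‖p.1 - p.2‖)
        ((M ×ˢ M) ∩ {p : E n × E n | p.1 ≠ p.2}) := by
      refine (h1.mono inter_subset_left).div ?_ ?_
      · exact (continuous_fst.sub continuous_snd).norm.continuousOn
      · intro p hp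
        exact norm_ne_zero_iff.2 (sub_ne_zero.2 hp.2)
    refine h3.congr fun p hp => ?_
    have h4 : ‖p.1 - p.2‖ ≠ 0 := norm_ne_zero_iff.2 (sub_ne_zero.2 hp.2)
    show pairing (e p.1) (e p.2) = (kdet 0 (e p.1) (e p.2) (p.1 - p.2) *
      ‖p.1 - p.2‖ ^ (1 : ℝ)) / ‖p.1 - p.2‖
    rw [kdet_zero, Real.rpow_one, mul_div_assoc, div_self h4, mul_one]
  have h5 := h2.aestronglyMeasurable (μ := v.prod v) hS
  rwa [Measure.restrict_eq_self_of_ae_mem (ae_good hm h)] at h5

theorem rpow_le_add {r a b c : ℝ} (hr : 0 < r) (h1 : a ≤ c) (h2 : c ≤ b) :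
    r ^ c ≤ r ^ a + r ^ b := by
  rcases le_total r 1 with h | h
  · have := Real.rpow_le_rpow_of_exponent_ge hr h h1
    have := Real.rpow_nonneg hr.le b
    linarith
  · have := Real.rpow_le_rpow_of_exponent_le h h2
    have := Real.rpow_nonneg hr.le a
    linarith

theorem abs_log_le {r δ : ℝ} (hr : 0 < r) (hδ : 0 < δ) :
    |Real.log r| ≤ (r ^ δ + r ^ (-δ)) / δ := by
  have h1 := Real.log_le_rpow_div hr.le hδ
  have h2 := Real.log_le_rpow_div (inv_pos.2 hr).le hδ
  rw [Real.log_inv, Real.inv_rpow hr.le, ← Real.rpow_neg hr.le] at h2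
  have h3 : 0 ≤ r ^ δ / δ := div_nonneg (Real.rpow_nonneg hr.le _) hδ.le
  have h4 : 0 ≤ r ^ (-δ) / δ := div_nonneg (Real.rpow_nonneg hr.le _) hδ.le
  rw [add_div, abs_le]
  constructor <;> linarith

theorem t_HOLM : S_INT → S_CONT → S_FIN → S_HOLM := by
  intro hI hC hF m n M e v hm h
  have : IsFiniteMeasure v := hF m n M e v h
  have hg := pairing_meas hC hm h
  have hgc : AEStronglyMeasurable
      (fun p : E n × E n => (pairing (e p.1) (e p.2) : ℂ)) (v.prod v) :=
    Complex.continuous_ofReal.comp_aestronglyMeasurable hg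
  have hb : ∀ᵐ p : E n × E n ∂(v.prod v), ‖(pairing (e p.1) (e p.2) : ℂ)‖ ≤
      (m.factorial : ℝ) := by
    filter_upwards [ae_good hm h] with p hp
    rw [Complex.norm_real, Real.norm_eq_abs]
    exact pairing_le (fun i => ((h.orthonormal _ hp.1.1).1 i).le)
      (fun i => ((h.orthonormal _ hp.1.2).1 i).le)
  -- measurability of the integrand
  have hmeas : ∀ z : ℂ, AEStronglyMeasurable
      (fun p : E n × E n => (pairing (e p.1) (e p.2) : ℂ) * (‖p.1 - p.2‖ : ℂ) ^ z)
      (v.prod v) := by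
    intro z
    refine hgc.mul ?_
    have h1 : Measurable (fun p : E n × E n => (‖p.1 - p.2‖ : ℂ) ^ z) := by
      have h2 : Measurable (fun p : E n × E n => (‖p.1 - p.2‖ : ℂ)) :=
        Complex.measurable_ofReal.comp (measurable_fst.sub measurable_snd).norm
      exact h2.pow_const z
    exact h1.aestronglyMeasurable
  have hmeas' : ∀ z : ℂ, AEStronglyMeasurable
      (fun p : E n × E n => (pairing (e p.1) (e p.2) : ℂ) *
        ((‖p.1 - p.2‖ : ℂ) ^ z * Complex.log (‖p.1 - p.2‖ : ℂ))) (v.prod v) := by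
    intro z
    refine hgc.mul ?_
    have h2 : Measurable (fun p : E n × E n => (‖p.1 - p.2‖ : ℂ)) :=
      Complex.measurable_ofReal.comp (measurable_fst.sub measurable_snd).norm
    exact ((h2.pow_const z).mul (Complex.measurable_log.comp h2)).aestronglyMeasurable
  -- integrability
  have hint : ∀ z : ℂ, -(m : ℝ) < z.re → Integrable
      (fun p : E n × E n => (pairing (e p.1) (e p.2) : ℂ) * (‖p.1 - p.2‖ : ℂ) ^ z)
      (v.prod v) := by
    intro z hz
    refine Integrable.mono' ((hI m n M e v hm h z.re hz).const_mul (m.factorial : ℝ))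
      (hmeas z) ?_
    filter_upwards [ae_good hm h, hb] with p hp hp2
    have hr : 0 < ‖p.1 - p.2‖ := norm_pos_iff.2 (sub_ne_zero.2 hp.2)
    rw [norm_mul, Complex.norm_cpow_eq_rpow_re_of_pos hr]
    exact mul_le_mul_of_nonneg_right hp2 (Real.rpow_nonneg hr.le _)
  -- the integral over the product
  have hmain : DifferentiableOn ℂ (fun z : ℂ => ∫ p : E n × E n,
      (pairing (e p.1) (e p.2) : ℂ) * (‖p.1 - p.2‖ : ℂ) ^ z ∂(v.prod v))
      {z : ℂ | -(m : ℝ) < z.re} := by
    intro z₀ hz₀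
    change -(m : ℝ) < z₀.re at hz₀
    obtain ⟨δ, hδ, hδ2⟩ : ∃ δ : ℝ, 0 < δ ∧ -(m : ℝ) < z₀.re - 2 * δ :=
      ⟨(z₀.re + m) / 4, by linarith, by linarith⟩
    have hbd : Integrable (fun p : E n × E n => (m.factorial : ℝ) *
        (2 / δ * (‖p.1 - p.2‖ ^ (z₀.re - 2 * δ) + ‖p.1 - p.2‖ ^ (z₀.re + 2 * δ))))
        (v.prod v) :=
      (((hI m n M e v hm h _ hδ2).add (hI m n M e v hm h (z₀.re + 2 * δ) (by linarith))).const_mul
        _).const_mul _
    have hd := hasDerivAt_integral_of_dominated_loc_of_deriv_le (𝕜 := ℂ) (μ := v.prod v)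
      (F := fun (z : ℂ) (p : E n × E n) =>
        (pairing (e p.1) (e p.2) : ℂ) * (‖p.1 - p.2‖ : ℂ) ^ z)
      (F' := fun (z : ℂ) (p : E n × E n) => (pairing (e p.1) (e p.2) : ℂ) *
        ((‖p.1 - p.2‖ : ℂ) ^ z * Complex.log (‖p.1 - p.2‖ : ℂ)))
      (x₀ := z₀) (s := Metric.ball z₀ δ) (Metric.ball_mem_nhds z₀ hδ)
      (Eventually.of_forall hmeas) (hint z₀ hz₀) (hmeas' z₀) ?_ hbd ?_
    · exact hd.2.differentiableAt.differentiableWithinAt
    · filter_upwards [ae_good hm h, hb] with p hp hp2 z hz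
      have hr : 0 < ‖p.1 - p.2‖ := norm_pos_iff.2 (sub_ne_zero.2 hp.2)
      rw [norm_mul, norm_mul, Complex.norm_cpow_eq_rpow_re_of_pos hr,
        ← Complex.ofReal_log hr.le, Complex.norm_real (Real.log _), Real.norm_eq_abs (Real.log _)]
      have h1 := abs_log_le hr hδ
      have h2 : |(z - z₀).re| < δ := by
        refine lt_of_le_of_lt (Complex.abs_re_le_norm _) ?_
        rw [← dist_eq_norm]
        exact hz
      rw [Complex.sub_re, abs_lt] at h2
      have h3 : ‖p.1 - p.2‖ ^ z.re * |Real.log ‖p.1 - p.2‖| ≤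
          2 / δ * (‖p.1 - p.2‖ ^ (z₀.re - 2 * δ) + ‖p.1 - p.2‖ ^ (z₀.re + 2 * δ)) := by
        have h4 : ‖p.1 - p.2‖ ^ z.re * |Real.log ‖p.1 - p.2‖| ≤
            ‖p.1 - p.2‖ ^ z.re * ((‖p.1 - p.2‖ ^ δ + ‖p.1 - p.2‖ ^ (-δ)) / δ) :=
          mul_le_mul_of_nonneg_left h1 (Real.rpow_nonneg hr.le _)
        have h5 : ‖p.1 - p.2‖ ^ z.re * ((‖p.1 - p.2‖ ^ δ + ‖p.1 - p.2‖ ^ (-δ)) / δ) =
            (‖p.1 - p.2‖ ^ (z.re + δ) + ‖p.1 - p.2‖ ^ (z.re + -δ)) / δ := by
          rw [Real.rpow_add hr, Real.rpow_add hr]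
          ring
        have h6 := rpow_le_add hr (a := z₀.re - 2 * δ) (b := z₀.re + 2 * δ) (c := z.re + δ)
          (by linarith [h2.1]) (by linarith [h2.2])
        have h7 := rpow_le_add hr (a := z₀.re - 2 * δ) (b := z₀.re + 2 * δ) (c := z.re + -δ)
          (by linarith [h2.1]) (by linarith [h2.2])
        rw [h5] at h4
        refine h4.trans ?_
        rw [div_mul_eq_mul_div]
        exact div_le_div_of_nonneg_right (by linarith) hδ.le
      exact mul_le_mul hp2 h3 (mul_nonneg (Real.rpow_nonneg hr.le _) (abs_nonneg _))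
        (Nat.cast_nonneg _)
    · filter_upwards [ae_good hm h] with p hp z _
      have hr : 0 < ‖p.1 - p.2‖ := norm_pos_iff.2 (sub_ne_zero.2 hp.2)
      have hr' : (‖p.1 - p.2‖ : ℂ) ≠ 0 := Complex.ofReal_ne_zero.2 hr.ne'
      have h1 : HasDerivAt (fun z : ℂ => (‖p.1 - p.2‖ : ℂ) ^ z)
          ((‖p.1 - p.2‖ : ℂ) ^ z * Complex.log (‖p.1 - p.2‖ : ℂ)) z := by
        simpa using (hasDerivAt_id z).const_cpow (Or.inl hr')
      exact h1.const_mul _
  refine hmain.congr fun z hz => ?_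
  exact (integral_prod _ (hint z hz)).symm

end Pool.Agent.K3h23.MI
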